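import Mathlib
import Pool.Agent.H50.InfOrder
import Pool.Agent.H50.Descent221
import Pool.Agent.H50.Local221

set_option autoImplicit false

namespace Pool.Agent.Results.MP_86855d_nt.NotDense

/-- The projective plane over the p-adic numbers. -/
abbrev P2 (p : ℕ) [Fact p.Prime] : Type := Projectivization ℚ_[p] (Fin 3 → ℚ_[p])

/-- The p-adic topology of the projective plane: the quotient topology from the nonzero vectors. -/
@[reducible] noncomputable def topP2 (p : ℕ) [Fact p.Prime] : TopologicalSpace (P2 p) :=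
  TopologicalSpace.coinduced
    (fun v : {v : Fin 3 → ℚ_[p] // v ≠ 0} => Projectivization.mk ℚ_[p] v.1 v.2) inferInstance

/-- E(Q_p): the points of the projective plane over Q_p on the projective Weierstrass cubic. -/
def localPoints (W : WeierstrassCurve ℚ) (p : ℕ) [Fact p.Prime] : Set (P2 p) :=
  {P | (W.baseChange ℚ_[p]).toProjective.Equation P.rep}

/-- E(Q) inside the projective plane over Q_p: points of the cubic with rational coordinates. -/
def rationalPoints (W : WeierstrassCurve ℚ) (p : ℕ) [Fact p.Prime] : Set (P2 p) :=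
  {P | ∃ v : Fin 3 → ℚ, W.toProjective.Equation v ∧
    ∃ hv : (fun i => (v i : ℚ_[p])) ≠ 0, P = Projectivization.mk ℚ_[p] (fun i => (v i : ℚ_[p])) hv}

/-- E(Q) is dense in E(Q_p). -/
def DenseAt (W : WeierstrassCurve ℚ) (p : ℕ) [Fact p.Prime] : Prop :=
  localPoints W p ⊆ @closure (P2 p) (topP2 p) (rationalPoints W p)

theorem sq_rep {p : ℕ} [Fact p.Prime] (v : Fin 3 → ℚ_[p]) (hv : v ≠ 0) :
    IsSquare ((Projectivization.mk ℚ_[p] v hv).rep 0 * (Projectivization.mk ℚ_[p] v hv).rep 2) ↔
      IsSquare (v 0 * v 2) := by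
  obtain ⟨a, ha⟩ := Projectivization.exists_smul_eq_mk_rep ℚ_[p] v hv
  rw [← ha]
  have ha0 : (a : ℚ_[p]) ≠ 0 := a.ne_zero
  simp only [Units.smul_def, Pi.smul_apply, smul_eq_mul]
  constructor
  · rintro ⟨w, hw⟩
    exact ⟨w / a, by field_simp; linear_combination hw⟩
  · rintro ⟨w, hw⟩
    exact ⟨w * a, by linear_combination (a : ℚ_[p]) ^ 2 * hw⟩

theorem result : ∃ W : WeierstrassCurve ℚ, W = ⟨0, 0, 0, 195364, 0⟩ ∧ W.IsElliptic ∧
    0 < Module.rank ℤ W.toAffine.Point ∧ ∀ (p : ℕ) [Fact p.Prime], ¬ DenseAt W p := by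
  refine ⟨_, rfl, ⟨?_⟩, ?_, ?_⟩
  · simp [WeierstrassCurve.Δ, WeierstrassCurve.b₂, WeierstrassCurve.b₄, WeierstrassCurve.b₆,
      WeierstrassCurve.b₈]
  · have hP : (⟨0, 0, 0, 195364, 0⟩ : WeierstrassCurve ℚ).toAffine.Nonsingular
        (2601 / 4) (160395 / 8) := by
      rw [WeierstrassCurve.Affine.nonsingular_iff, WeierstrassCurve.Affine.equation_iff]
      norm_num
    refine H50.InfOrder.rank_pos_of_not_finOrder (H50.InfOrder.not_finOrder rfl rfl ?_ ?_ ?_ hP ?_)
    · simp [H50.InfOrder.N_zero]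
    · exact_mod_cast H50.InfOrder.N_int 195364
    · simp [H50.InfOrder.N_zero]
    · have e : (2601 / 4 : ℚ) = ((2601 : ℤ) : ℚ) / 2 ^ 2 := by norm_num
      rw [e, H50.InfOrder.N_div, H50.InfOrder.N_pow, H50.InfOrder.N_two,
        H50.InfOrder.N_odd _ (by decide)]
      norm_num
  · intro p _ hd
    obtain ⟨x, y, hxy, hx⟩ := H50.Local221.local_point p
    have hv : (![x, y, 1] : Fin 3 → ℚ_[p]) ≠ 0 := fun h => by simpa using congrFun h 2
    have hmem : Projectivization.mk ℚ_[p] _ hv ∈ localPoints ⟨0, 0, 0, 195364, 0⟩ p := by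
      obtain ⟨a, ha⟩ := Projectivization.exists_smul_eq_mk_rep ℚ_[p] _ hv
      simp only [localPoints, Set.mem_ofPred_eq]
      rw [← ha, WeierstrassCurve.Projective.equation_iff]
      simp [Units.smul_def, WeierstrassCurve.baseChange, WeierstrassCurve.map]
      linear_combination (a : ℚ_[p]) ^ 3 * hxy
    let _ := topP2 p
    have hcl : IsClosed {P : P2 p | IsSquare (P.rep 0 * P.rep 2)} := by
      rw [isClosed_coinduced]
      have h1 : IsClosed (Set.range fun t : ℚ_[p] => t ^ 2) := (isClosedMap_pow ℚ_[p] 2).isClosed_range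
      have h2 : Continuous fun v : {v : Fin 3 → ℚ_[p] // v ≠ 0} => v.1 0 * v.1 2 :=
        ((continuous_apply 0).comp continuous_subtype_val).mul
          ((continuous_apply 2).comp continuous_subtype_val)
      convert h1.preimage h2 using 1
      ext v
      simp only [Set.mem_preimage, Set.mem_ofPred_eq, sq_rep, Set.mem_range]
      exact ⟨fun ⟨w, hw⟩ => ⟨w, by rw [hw]; ring⟩, fun ⟨w, hw⟩ => ⟨w, by rw [← hw]; ring⟩⟩
    have hsub : rationalPoints ⟨0, 0, 0, 195364, 0⟩ p ⊆
        {P : P2 p | IsSquare (P.rep 0 * P.rep 2)} := by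
      rintro P ⟨v, hv, hv0, rfl⟩
      simp only [Set.mem_ofPred_eq, sq_rep]
      rw [WeierstrassCurve.Projective.equation_iff] at hv
      simp only [zero_mul, add_zero] at hv
      by_cases hz : v 2 = 0
      · simp [hz]
      · obtain ⟨w, hw⟩ := H50.Descent221.x_square (v 0 / v 2) (v 1 / v 2) (by
          field_simp
          linear_combination hv)
        have : v 0 * v 2 = (w * v 2) * (w * v 2) := by
          field_simp at hw
          linear_combination (v 2) * hw
        exact ⟨((w * v 2 : ℚ) : ℚ_[p]), by exact_mod_cast this⟩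
    have := closure_minimal hsub hcl (hd hmem)
    simp only [Set.mem_ofPred_eq, sq_rep] at this
    exact hx (by simpa using this)

end Pool.Agent.Results.MP_86855d_nt.NotDense
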